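import Pool.Agent.helper63.NU.Defs3
import Pool.Agent.helper18.NU.D4
import Pool.Agent.helper69.NU.F2
import Pool.Agent.helper51.NU.B3

set_option autoImplicit false
set_option linter.all false

/-! Module Q4a: average order of vanishing at a point. -/

open MeasureTheory Filter Topology Set
open scoped ContDiff Manifold Matrix ENNReal ComplexOrder

noncomputable section

namespace Pool.Agent.helper63.NU

section abstractPart

variable {X : Type*} [TopologicalSpace X] [CompactSpace X] [MeasurableSpace X] [BorelSpace X]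
  {ν : Measure X}

theorem Q4a_int [IsProbabilityMeasure ν] {f : X → ℝ} (hf : Continuous f) : Integrable f ν :=
  hf.integrable_of_hasCompactSupport (HasCompactSupport.of_compactSpace f)

/-- derivative at zero of a convex function, abstract version -/
theorem Q4a_abs [IsProbabilityMeasure ν] {N : ℕ} {P : Fin N → X → ℝ}
    (hc : ∀ j, Continuous (P j)) (h0 : ∀ j x, 0 ≤ P j x) (hpos : ∀ x, 0 < ∑ j, P j x)
    {m : Fin N → ℕ} {θ d : ℝ} (hθ : 0 < θ)
    (hconv : ConvexOn ℝ univ (fun w : Fin N → ℝ =>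
      -Real.log (∫ x, (∑ j, Real.exp (w j) * P j x) ^ (-θ) ∂ν)))
    (hsl : ∃ K : ℝ, ∀ t ≥ (0 : ℝ), -Real.log (∫ x, (∑ j, Real.exp (t * m j) * P j x) ^ (-θ) ∂ν)
      ≤ d * t + K) :
    θ * ∑ j, m j * (∫ x, P j x / (∑ i, P i x) *
      ((∑ i, P i x) ^ (-θ) / ∫ x, (∑ i, P i x) ^ (-θ) ∂ν) ∂ν) ≤ d := by
  obtain ⟨K, hK⟩ := hsl
  set ρ : X → ℝ := fun x => ∑ i, P i x with hρ
  have hρc : Continuous ρ := continuous_finsetSum _ fun i _ => hc i
  have hρp : ∀ x, 0 < ρ x := hpos
  set q : X → ℝ := fun x => ρ x ^ (-θ) with hq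
  have hqc : Continuous q := hρc.rpow_const fun x => Or.inl (hρp x).ne'
  have hqp : ∀ x, 0 < q x := fun x => Real.rpow_pos_of_pos (hρp x) _
  set Z : ℝ := ∫ x, q x ∂ν with hZ
  set M : X → ℝ := fun x => ∑ j, (m j : ℝ) * (P j x / ρ x) with hM
  have hpc : ∀ j, Continuous (fun x => P j x / ρ x) := fun j =>
    (hc j).div₀ hρc fun x => (hρp x).ne'
  have hMc : Continuous M := continuous_finsetSum _ fun j _ => (hpc j).const_mul _
  have hp0 : ∀ j x, 0 ≤ P j x / ρ x := fun j x => div_nonneg (h0 j x) (hρp x).le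
  have hp1 : ∀ x, ∑ j, P j x / ρ x = 1 := fun x => by
    rw [← Finset.sum_div]; exact div_self (hρp x).ne'
  have hple : ∀ j x, P j x / ρ x ≤ 1 := fun j x => by
    rw [← hp1 x]; exact Finset.single_le_sum (fun i _ => hp0 i x) (Finset.mem_univ j)
  have hM0 : ∀ x, 0 ≤ M x := fun x => Finset.sum_nonneg fun j _ =>
    mul_nonneg (Nat.cast_nonneg _) (hp0 j x)
  set C : ℝ := ∑ j, (m j : ℝ) with hC
  have hC0 : 0 ≤ C := Finset.sum_nonneg fun j _ => Nat.cast_nonneg _
  have hMC : ∀ x, M x ≤ C := fun x => Finset.sum_le_sum fun j _ =>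
    mul_le_of_le_one_right (Nat.cast_nonneg _) (hple j x)
  have hZp : 0 < Z := by
    have hne : Nonempty X := by
      by_contra h
      rw [not_nonempty_iff] at h
      have := (inferInstance : IsProbabilityMeasure ν).measure_univ
      rw [univ_eq_empty_iff.2 h, measure_empty] at this
      exact zero_ne_one this
    obtain ⟨x0, -, hx0⟩ := isCompact_univ.exists_isMinOn univ_nonempty hqc.continuousOn
    have h1 : ∫ x, q x0 ∂ν ≤ Z := by
      refine integral_mono (integrable_const _) (Q4a_int hqc) fun x => ?_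
      exact hx0 (mem_univ x)
    rw [integral_const, probReal_univ, one_smul] at h1
    exact lt_of_lt_of_le (hqp x0) h1
  set A : ℝ := ∫ x, M x * q x ∂ν with hA
  -- rewrite the left side
  have hL : ∑ j, (m j : ℝ) * (∫ x, P j x / ρ x * (q x / Z) ∂ν) = A / Z := by
    have e1 : ∀ j, (m j : ℝ) * (∫ x, P j x / ρ x * (q x / Z) ∂ν)
        = ∫ x, (m j : ℝ) * (P j x / ρ x * q x) / Z ∂ν := by
      intro j
      rw [← integral_const_mul]
      refine integral_congr_ae (ae_of_all _ fun x => ?_)
      dsimp only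
      ring
    simp only [e1]
    rw [← integral_finset_sum, hA, ← integral_div]
    · refine integral_congr_ae (ae_of_all _ fun x => ?_)
      dsimp only
      rw [← Finset.sum_div, hM]
      dsimp only
      rw [Finset.sum_mul]
      congr 1
      refine Finset.sum_congr rfl fun j _ => ?_
      ring
    · intro j _
      exact Q4a_int ((((hpc j).mul hqc).const_mul _).div_const _)
  have hgoal : θ * ∑ j, (m j : ℝ) * (∫ x, P j x / (∑ i, P i x) *
      ((∑ i, P i x) ^ (-θ) / ∫ x, (∑ i, P i x) ^ (-θ) ∂ν) ∂ν) = θ * (A / Z) := by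
    rw [← hL]
  rw [hgoal]
  -- the function on the half line
  set G : ℝ → ℝ := fun t => -Real.log (∫ x, (∑ j, Real.exp (t * m j) * P j x) ^ (-θ) ∂ν) with hG
  have hG0 : G 0 = -Real.log Z := by
    rw [hG]; simp only [zero_mul, Real.exp_zero, one_mul]; rfl
  have hGconv : ∀ h t : ℝ, 0 < h → h ≤ t → G h - G 0 ≤ h / t * (G t - G 0) := by
    intro h t hh hht
    have ht : 0 < t := lt_of_lt_of_le hh hht
    have := hconv.2 (mem_univ (0 : Fin N → ℝ)) (mem_univ (fun j => t * (m j : ℝ)))
      (show (0 : ℝ) ≤ 1 - h / t by rw [sub_nonneg]; exact (div_le_one ht).2 hht)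
      (show (0 : ℝ) ≤ h / t by positivity) (by ring)
    dsimp only at this
    have e : ∀ j, ((1 - h / t) • (0 : Fin N → ℝ) + (h / t) • fun j => t * (m j : ℝ)) j
        = h * m j := by
      intro j
      simp only [Pi.add_apply, Pi.smul_apply, Pi.zero_apply, smul_eq_mul, mul_zero, zero_add]
      field_simp
    simp only [e] at this
    have e0 : G 0 = -Real.log (∫ x, (∑ j, Real.exp ((0 : Fin N → ℝ) j) * P j x) ^ (-θ) ∂ν) := by
      rw [hG0]; simp only [Pi.zero_apply, Real.exp_zero, one_mul]; rfl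
    rw [← e0] at this
    have e1 : G h ≤ (1 - h / t) * G 0 + h / t * G t := this
    linarith
  -- lower bound for `G h`
  have hlow : ∀ h : ℝ, 0 < h → θ * h * C ≤ 1 → θ * h * (A / Z) - θ ^ 2 * h ^ 2 * C ^ 2
      ≤ G h - G 0 := by
    intro h hh hhC
    have hpt : ∀ x, (∑ j, Real.exp (h * m j) * P j x) ^ (-θ)
        ≤ q x * (1 - θ * h * M x + θ ^ 2 * h ^ 2 * C ^ 2) := by
      intro x
      have hJ : Real.exp (h * M x) ≤ ∑ j, P j x / ρ x * Real.exp (h * m j) := by
        have := convexOn_exp.map_sum_le (t := Finset.univ) (w := fun j => P j x / ρ x)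
          (p := fun j => h * (m j : ℝ)) (fun j _ => hp0 j x) (hp1 x) (fun j _ => mem_univ _)
        simp only [smul_eq_mul] at this
        have e : h * M x = ∑ j, P j x / ρ x * (h * m j) := by
          rw [hM]; dsimp only
          rw [Finset.mul_sum]
          refine Finset.sum_congr rfl fun j _ => ?_
          ring
        rw [e]; exact this
      have hJ2 : ρ x * Real.exp (h * M x) ≤ ∑ j, Real.exp (h * m j) * P j x := by
        calc ρ x * Real.exp (h * M x) ≤ ρ x * ∑ j, P j x / ρ x * Real.exp (h * m j) :=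
              mul_le_mul_of_nonneg_left hJ (hρp x).le
          _ = ∑ j, Real.exp (h * m j) * P j x := by
              rw [Finset.mul_sum]
              refine Finset.sum_congr rfl fun j _ => ?_
              have := (hρp x).ne'
              field_simp
      have h1 : (∑ j, Real.exp (h * m j) * P j x) ^ (-θ) ≤ (ρ x * Real.exp (h * M x)) ^ (-θ) :=
        Real.rpow_le_rpow_of_nonpos (mul_pos (hρp x) (Real.exp_pos _)) hJ2 (by linarith)
      have h2 : (ρ x * Real.exp (h * M x)) ^ (-θ) = q x * Real.exp (-(θ * h * M x)) := by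
        rw [Real.mul_rpow (hρp x).le (Real.exp_pos _).le, ← Real.exp_mul]
        congr 2
        ring
      have h3 : Real.exp (-(θ * h * M x)) ≤ 1 - θ * h * M x + θ ^ 2 * h ^ 2 * C ^ 2 := by
        have hy0 : 0 ≤ θ * h * M x := mul_nonneg (mul_nonneg hθ.le hh.le) (hM0 x)
        have hy1 : θ * h * M x ≤ θ * h * C :=
          mul_le_mul_of_nonneg_left (hMC x) (mul_nonneg hθ.le hh.le)
        have h4 := Real.abs_exp_sub_one_sub_id_le (x := -(θ * h * M x))
          (by rw [abs_neg, abs_of_nonneg hy0]; linarith)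
        have h5 := (abs_le.1 h4).2
        have h6 : (-(θ * h * M x)) ^ 2 ≤ θ ^ 2 * h ^ 2 * C ^ 2 := by
          rw [neg_sq]
          calc (θ * h * M x) ^ 2 ≤ (θ * h * C) ^ 2 := pow_le_pow_left₀ hy0 hy1 2
            _ = θ ^ 2 * h ^ 2 * C ^ 2 := by ring
        linarith
      rw [h2] at h1
      exact h1.trans (mul_le_mul_of_nonneg_left h3 (hqp x).le)
    have hsumc : Continuous fun x => ∑ j, Real.exp (h * m j) * P j x :=
      continuous_finsetSum _ fun j _ => (hc j).const_mul _
    have hsump : ∀ x, 0 < ∑ j, Real.exp (h * m j) * P j x := by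
      intro x
      obtain ⟨j, -, hj⟩ : ∃ j ∈ Finset.univ, 0 < P j x := by
        by_contra hcon
        push Not at hcon
        exact absurd (Finset.sum_nonpos hcon) (not_le.2 (hpos x))
      refine lt_of_lt_of_le (mul_pos (Real.exp_pos (h * m j)) hj) ?_
      exact Finset.single_le_sum (f := fun j => Real.exp (h * m j) * P j x)
        (fun i _ => mul_nonneg (Real.exp_pos _).le (h0 i x)) (Finset.mem_univ j)
    have hsc : Continuous fun x => (∑ j, Real.exp (h * m j) * P j x) ^ (-θ) :=
      hsumc.rpow_const fun x => Or.inl (hsump x).ne'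
    set Zh : ℝ := ∫ x, (∑ j, Real.exp (h * m j) * P j x) ^ (-θ) ∂ν with hZh
    have hZh1 : Zh ≤ Z - θ * h * A + θ ^ 2 * h ^ 2 * C ^ 2 * Z := by
      have h1 : Zh ≤ ∫ x, q x * (1 - θ * h * M x + θ ^ 2 * h ^ 2 * C ^ 2) ∂ν := by
        refine integral_mono (Q4a_int hsc) (Q4a_int ?_) hpt
        exact hqc.mul ((continuous_const.sub (hMc.const_mul _)).add continuous_const)
      have h2 : ∫ x, q x * (1 - θ * h * M x + θ ^ 2 * h ^ 2 * C ^ 2) ∂ν
          = Z - θ * h * A + θ ^ 2 * h ^ 2 * C ^ 2 * Z := by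
        have e : (fun x => q x * (1 - θ * h * M x + θ ^ 2 * h ^ 2 * C ^ 2))
            = fun x => (q x - θ * h * (M x * q x)) + θ ^ 2 * h ^ 2 * C ^ 2 * q x := by
          funext x; ring
        rw [e, integral_add, integral_sub, integral_const_mul, integral_const_mul]
        · exact Q4a_int hqc
        · exact Q4a_int ((hMc.mul hqc).const_mul _)
        · exact Q4a_int (hqc.sub ((hMc.mul hqc).const_mul _))
        · exact Q4a_int (hqc.const_mul _)
      rw [h2] at h1; exact h1
    have hZhp : 0 < Zh := by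
      have hne : Nonempty X := by
        by_contra h
        rw [not_nonempty_iff] at h
        have := (inferInstance : IsProbabilityMeasure ν).measure_univ
        rw [univ_eq_empty_iff.2 h, measure_empty] at this
        exact zero_ne_one this
      obtain ⟨x0, -, hx0⟩ := isCompact_univ.exists_isMinOn univ_nonempty hsc.continuousOn
      have h1 : ∫ x, (∑ j, Real.exp (h * m j) * P j x0) ^ (-θ) ∂ν ≤ Zh := by
        refine integral_mono (integrable_const _) (Q4a_int hsc) fun x => ?_
        exact hx0 (mem_univ x)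
      rw [integral_const, probReal_univ, one_smul] at h1
      exact lt_of_lt_of_le (Real.rpow_pos_of_pos (hsump x0) _) h1
    have hGh : G h = -Real.log Zh := rfl
    rw [hGh, hG0]
    have h1 : Real.log Zh - Real.log Z ≤ Zh / Z - 1 := by
      rw [← Real.log_div hZhp.ne' hZp.ne']
      exact Real.log_le_sub_one_of_pos (div_pos hZhp hZp)
    have h2 : Zh / Z - 1 ≤ -(θ * h * (A / Z)) + θ ^ 2 * h ^ 2 * C ^ 2 := by
      rw [sub_le_iff_le_add, div_le_iff₀ hZp]
      have e : (-(θ * h * (A / Z)) + θ ^ 2 * h ^ 2 * C ^ 2 + 1) * Z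
          = Z - θ * h * A + θ ^ 2 * h ^ 2 * C ^ 2 * Z := by
        field_simp; ring
      rw [e]; exact hZh1
    linarith
  -- conclusion
  refine le_of_forall_pos_le_add fun ε hε => ?_
  set h : ℝ := min (1 / (θ * C + 1)) (ε / (2 * (θ ^ 2 * C ^ 2 + 1))) with hh
  have hh0 : 0 < h := by
    rw [hh]; refine lt_min ?_ ?_ <;> positivity
  have hh1 : θ * h * C ≤ 1 := by
    have : h ≤ 1 / (θ * C + 1) := min_le_left _ _
    have h3 : 0 < θ * C + 1 := by positivity
    rw [le_div_iff₀ h3] at this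
    nlinarith
  have hh2 : θ ^ 2 * h * C ^ 2 ≤ ε / 2 := by
    have : h ≤ ε / (2 * (θ ^ 2 * C ^ 2 + 1)) := min_le_right _ _
    have h3 : 0 < 2 * (θ ^ 2 * C ^ 2 + 1) := by positivity
    rw [le_div_iff₀ h3] at this
    nlinarith
  set t : ℝ := max h (2 * |K - G 0| / ε) with ht
  have hht : h ≤ t := le_max_left _ _
  have ht0 : 0 < t := lt_of_lt_of_le hh0 hht
  have ht1 : (K - G 0) / t ≤ ε / 2 := by
    rw [div_le_iff₀ ht0]
    have h3 : 2 * |K - G 0| / ε ≤ t := le_max_right _ _
    rw [div_le_iff₀ hε] at h3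
    have := le_abs_self (K - G 0)
    linarith
  have h1 := hlow h hh0 hh1
  have h2 := hGconv h t hh0 hht
  have h3 : G t ≤ d * t + K := hK t ht0.le
  have h4 : G h - G 0 ≤ h * (d + (K - G 0) / t) := by
    refine h2.trans ?_
    have e : h * (d + (K - G 0) / t) = h / t * (d * t + K - G 0) := by field_simp; ring
    rw [e]
    exact mul_le_mul_of_nonneg_left (by linarith) (by positivity)
  have h5 : h * (θ * (A / Z) - θ ^ 2 * h * C ^ 2) ≤ h * (d + (K - G 0) / t) := by
    refine le_trans (le_of_eq ?_) (h1.trans h4)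
    ring
  have h6 := le_of_mul_le_mul_left h5 hh0
  linarith

end abstractPart

variable {n : ℕ} {M : Type*} [TopologicalSpace M] [ChartedSpace (E n) M]
  [IsManifold 𝓘(ℂ, E n) ω M]
variable [CompactSpace M] [T2Space M] [ConnectedSpace M]
variable [MeasurableSpace M] [BorelSpace M] {μ : Measure M} {φ : Fam n M ℝ}

/-- average order of vanishing at a point: derivative at `0` ≤ slope at infinity -/
theorem avg_ord [IsProbabilityMeasure μ] (hφ : IsPos 1 φ) (hμ : IsDens μ φ) {k N : ℕ}
    {s : Fin N → Fam n M ℂ} (hs : ∀ j, IsHol k (s j)) (hne : ∀ x, 0 < ∑ j, nrm k φ (s j) x)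
    {e : Ch n M} (he : e ∈ atlas (E n) M) {p : E n} (hp : p ∈ e.target) {m : Fin N → ℕ}
    (hv : ∀ i, VanO (s i e) p (m i)) {θ : ℝ} (hθ : 0 < θ) (hθk : θ * k < 1) :
    θ * ∑ j, m j * (∫ x, nrm k φ (s j) x / (∑ i, nrm k φ (s i) x) *
      ((∑ i, nrm k φ (s i) x) ^ (-θ) / ∫ x, (∑ i, nrm k φ (s i) x) ^ (-θ) ∂μ) ∂μ) ≤ n := by
  refine Q4a_abs (ν := μ) (P := fun j => nrm k φ (s j)) (m := m)
    (fun j => continuous_nrm hφ.toIsWeight (hs j).toIsSec)
    (fun j x => ?_) hne hθ (ding_convex hφ hμ hs hne hθ hθk) ?_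
  · unfold nrm; positivity
  · exact jet_slope hφ hμ hs hne he hp hv hθ

end Pool.Agent.helper63.NU
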