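import Pool.Agent.helper63.NU.Defs4
import Pool.Agent.helper41.NU.A1
import Pool.Agent.helper41.NU.A2
import Pool.Agent.helper70.NU.A7
import Pool.Agent.helper69.NU.A9
import Pool.Agent.helper69.NU.B1
import Pool.Agent.helper69.NU.B2
import Pool.Agent.helper51.NU.B3
import Pool.Agent.helper80.NU.B4
import Pool.Agent.helper63.NU.Stub.B5
import Pool.Agent.helper40.NU.M2e

set_option autoImplicit false
set_option linter.all false

/-! Module M2f: the Liouville argument. -/

open MeasureTheory Filter Topology Set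
open scoped ContDiff Manifold Matrix ENNReal ComplexOrder

noncomputable section

namespace Pool.Agent.helper63.NU

variable {n : ℕ}

namespace M2f

/-- entire functions of linear growth are affine -/
theorem liouville {f : E n → ℂ} (hf : Differentiable ℂ f) {K : ℝ}
    (hK : ∀ y, ‖f y‖ ≤ K * (1 + ‖y‖)) (y : E n) : f y = f 0 + fderiv ℂ f 0 y := by
  set g : ℂ → ℂ := fun t => f (t • y) with hg
  have hgd : Differentiable ℂ g := by
    intro t
    exact (hf (t • y)).comp t (differentiableAt_id.smul_const y)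
  have hgder : HasDerivAt g (fderiv ℂ f 0 y) 0 := by
    have h1 : HasFDerivAt f (fderiv ℂ f ((0 : ℂ) • y)) ((0 : ℂ) • y) :=
      (hf _).hasFDerivAt
    have h2 : HasDerivAt (fun t : ℂ => t • y) y 0 := by
      simpa using (hasDerivAt_id (0 : ℂ)).smul_const y
    have h3 : HasDerivAt g (fderiv ℂ f ((0 : ℂ) • y) y) 0 := h1.comp_hasDerivAt (0 : ℂ) h2
    rwa [zero_smul] at h3
  have hds : Differentiable ℂ (dslope g 0) := by
    have := (Complex.differentiableOn_dslope (f := g) (c := 0) (s := univ) univ_mem).2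
      hgd.differentiableOn
    exact differentiableOn_univ.1 this
  have hb : Bornology.IsBounded (range (dslope g 0)) := by
    have hcomp : IsCompact (dslope g 0 '' Metric.closedBall (0 : ℂ) 1) :=
      (isCompact_closedBall _ _).image hds.continuous
    have hK0 : 0 ≤ K := by
      have := (norm_nonneg _).trans (hK 0)
      simpa using this
    obtain ⟨R, hR⟩ := hcomp.isBounded.exists_norm_le
    refine isBounded_iff_forall_norm_le.2 ⟨max R (K * (2 + ‖y‖)), ?_⟩
    rintro _ ⟨t, rfl⟩
    by_cases ht : ‖t‖ ≤ 1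
    · exact (hR _ ⟨t, by simpa using ht, rfl⟩).trans (le_max_left _ _)
    · push Not at ht
      refine le_trans ?_ (le_max_right _ _)
      have ht0 : t ≠ 0 := by
        rintro rfl
        simp at ht
        linarith
      rw [dslope_of_ne _ ht0, slope_def_field, norm_div, div_le_iff₀ (by simpa using ht0)]
      have h1 : ‖g t‖ ≤ K * (1 + ‖t‖ * ‖y‖) := by
        have := hK (t • y)
        rwa [norm_smul] at this
      have h2 : ‖g 0‖ ≤ K := by
        have := hK ((0 : ℂ) • y)
        simpa [hg] using this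
      have h3 := norm_sub_le (g t) (g 0)
      rw [sub_zero]
      have h4 : K * (1 + ‖t‖ * ‖y‖) + K ≤ K * (2 + ‖y‖) * ‖t‖ := by
        nlinarith [mul_nonneg hK0 (by linarith : 0 ≤ ‖t‖ - 1)]
      linarith
  have hconst := hds.apply_eq_apply_of_bounded hb 1 0
  rw [dslope_of_ne _ one_ne_zero, dslope_same, slope_def_field, hgder.deriv] at hconst
  have e1 : g 1 = f y := by simp [hg]
  have e0 : g 0 = f 0 := by simp [hg]
  rw [e1, e0] at hconst
  simp only [sub_zero, div_one] at hconst
  linear_combination hconst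

theorem lf_zero_eq (c : E (n + 1)) (y : E n) : lf c 0 y = c 0 + ∑ j, c j.succ * y j := by
  unfold lf ins
  rw [Fin.sum_univ_succ]
  simp [Fin.insertNth_zero]

theorem affine_of {f : E n → ℂ} (hf : Differentiable ℂ f) {K : ℝ}
    (hK : ∀ y, ‖f y‖ ≤ K * (1 + ‖y‖)) : ∃ b : E (n + 1), ∀ y, f y = lf b 0 y := by
  refine ⟨Fin.cons (f 0) fun j => fderiv ℂ f 0 (Pi.single j 1), fun y => ?_⟩
  rw [liouville hf hK y, lf_zero_eq]
  simp only [Fin.cons_zero, Fin.cons_succ]
  congr 1
  conv_lhs => rw [show y = ∑ j, y j • (Pi.single j (1 : ℂ) : E n) from by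
    rw [← Finset.univ_sum_single y]
    refine Finset.sum_congr rfl fun j _ => ?_
    simp [← Pi.single_smul]]
  rw [map_sum]
  refine Finset.sum_congr rfl fun j _ => ?_
  rw [map_smul, smul_eq_mul, mul_comm]

theorem contDiff_chart {v : CP n → ℂ} (hv : Sm n v) (i : Fin (n + 1)) :
    ContDiff ℝ ∞ (fun z => v ((CP.chart i).symm z)) := by
  have := hv (CP.chart i) (mem_range_self i)
  rw [CP.chart_target] at this
  exact contDiffOn_univ.1 this

theorem contDiff_weight {ψ : Fam n (CP n) ℝ} (hψ : IsWeight 1 ψ) (i : Fin (n + 1)) :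
    ContDiff ℝ ∞ (ψ (CP.chart i)) := by
  have := hψ.smooth (CP.chart i) (mem_range_self i)
  rw [CP.chart_target] at this
  exact contDiffOn_univ.1 this

theorem differentiable_lf (c : E (n + 1)) : Differentiable ℂ (lf c 0) := by
  have : lf c (0 : Fin (n + 1)) = fun y : E n => c 0 + ∑ j, c j.succ * y j := by
    funext y
    exact lf_zero_eq c y
  rw [this]
  refine (differentiable_const _).add (Differentiable.fun_sum fun j _ => ?_)
  exact (differentiable_apply j).const_mul _

theorem dz_lf (c : E (n + 1)) (j : Fin n) (y : E n) : dz j (lf c 0) y = c j.succ := by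
  rw [dz_hol (differentiable_lf c y)]
  have : lf c (0 : Fin (n + 1)) = fun y : E n => c 0 + ∑ j, c j.succ * y j := by
    funext y
    exact lf_zero_eq c y
  have h1 : HasFDerivAt (lf c (0 : Fin (n + 1)))
      (∑ j, c j.succ • (ContinuousLinearMap.proj (R := ℂ) (φ := fun _ : Fin n => ℂ) j)) y := by
    rw [this]
    refine (HasFDerivAt.fun_sum fun j _ => ?_).const_add _
    exact (hasFDerivAt_apply j y).const_mul _
  rw [h1.fderiv, ContinuousLinearMap.sum_apply, Finset.sum_eq_single j]
  · simp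
  · intro k _ hk
    simp [hk]
  · intro h
    exact absurd (Finset.mem_univ j) h

/-- `v = a(ψ) - div a` -/
theorem v_eq {ψ : E n → ℝ} (hψ : ContDiff ℝ ∞ ψ) {f : E n → ℂ} {a : E n → E n}
    (ha : ∀ y j, a y j = rs (lev ψ y) (dbv f y) j) (hhol : Differentiable ℂ a) (y : E n) :
    bx ψ f y = ∑ j, (a y j * dz j (fun z => ((ψ z : ℝ) : ℂ)) y - dz j (fun z => a z j) y) := by
  have hψd : Differentiable ℝ ψ := hψ.differentiable (by simp)
  have haj : ∀ j, Differentiable ℂ (fun z => a z j) := fun j => differentiable_pi.1 hhol j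
  unfold bx
  rw [Finset.mul_sum]
  refine Finset.sum_congr rfl fun j _ => ?_
  have e1 : (fun z => (Real.exp (-ψ z) : ℂ) * rs (lev ψ z) (dbv f z) j)
      = fun z => (Real.exp (-ψ z) : ℂ) * a z j := by
    funext z
    rw [ha z j]
  rw [e1]
  have hg : DifferentiableAt ℝ (fun t : ℝ => Real.exp (-t)) (ψ y) :=
    (Real.differentiable_exp.comp differentiable_neg) _
  have hd : DifferentiableAt ℝ (fun z => (Real.exp (-ψ z) : ℂ)) y := by
    have : DifferentiableAt ℝ (fun z => Real.exp (-ψ z)) y := (hψd y).neg.exp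
    exact Complex.ofRealCLM.differentiableAt.comp y this
  rw [dz_mul hd (((haj j) y).restrictScalars ℝ)]
  have e2 := dz_real_comp (g := fun t : ℝ => Real.exp (-t)) (ψ := ψ) (y := y) hg (hψd y) j
  have e3 : deriv (fun t : ℝ => Real.exp (-t)) (ψ y) = -Real.exp (-ψ y) := by
    have : HasDerivAt (fun t : ℝ => Real.exp (-t)) (Real.exp (-ψ y) * (-1)) (ψ y) :=
      (hasDerivAt_neg (ψ y)).exp
    rw [this.deriv]
    ring
  rw [e2, e3]
  have e4 : (Real.exp (ψ y) : ℂ) * (Real.exp (-ψ y) : ℂ) = 1 := by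
    rw [← Complex.ofReal_mul, ← Real.exp_add]
    simp
  push_cast
  push_cast at e4
  linear_combination (a y j * dz j (fun z => ((ψ z : ℝ) : ℂ)) y - dz j (fun z => a z j) y) * e4

/-- the operator `D l = a(l) - (div a) l / (n + 1)` -/
def DD (a : E n → E n) (c : E (n + 1)) (y : E n) : ℂ :=
  ∑ j, a y j * c j.succ - (∑ j, dz j (fun z => a z j) y) / (n + 1) * lf c 0 y

theorem differentiable_DD {a : E n → E n} (hhol : Differentiable ℂ a) (c : E (n + 1)) :
    Differentiable ℂ (DD a c) := by
  have haj : ∀ j, Differentiable ℂ (fun z => a z j) := fun j => differentiable_pi.1 hhol j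
  have h1 : Differentiable ℂ (fun y => ∑ j, a y j * c j.succ) :=
    Differentiable.fun_sum fun j _ => (haj j).mul_const _
  have h2 : ∀ j, Differentiable ℂ (fun y => dz j (fun z => a z j) y) := by
    intro j
    have e : (fun y => dz j (fun z => a z j) y)
        = fun y => fderiv ℂ (fun z => a z j) y (Pi.single j 1) := by
      funext y
      exact dz_hol (haj j y) j
    rw [e]
    have han : AnalyticOnNhd ℂ (fun z => a z j) univ :=
      osgood isOpen_univ (haj j).differentiableOn
    intro y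
    exact (han.fderiv y (mem_univ y)).differentiableAt.clm_apply (differentiableAt_const _)
  have h3 : Differentiable ℂ (fun y => ∑ j, dz j (fun z => a z j) y) :=
    Differentiable.fun_sum fun j _ => h2 j
  have h4 : Differentiable ℂ (fun y => (∑ j, dz j (fun z => a z j) y) / ((n : ℂ) + 1)) := by
    simpa only [div_eq_mul_inv] using h3.mul_const (((n : ℂ) + 1)⁻¹)
  exact h1.sub (h4.mul (differentiable_lf c))

theorem aF_eq {ψ : E n → ℝ} (hψ : ContDiff ℝ ∞ ψ) {f : E n → ℂ} {a : E n → E n}
    (ha : ∀ y j, a y j = rs (lev ψ y) (dbv f y) j) (hhol : Differentiable ℂ a)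
    (hbox : ∀ y, bx ψ f y = f y) (c c' : E (n + 1)) (y : E n) :
    ∑ j, a y j * dz j (fun z => lf c 0 z * (starRingEnd ℂ) (lf c' 0 z) *
        (Real.exp (-(ψ z / (n + 1))) : ℂ)) y
      = DD a c y * (starRingEnd ℂ) (lf c' 0 y) * (Real.exp (-(ψ y / (n + 1))) : ℂ)
        - f y * (lf c 0 y * (starRingEnd ℂ) (lf c' 0 y) *
          (Real.exp (-(ψ y / (n + 1))) : ℂ)) / (n + 1) := by
  have hψd : Differentiable ℝ ψ := hψ.differentiable (by simp)
  have hv := v_eq hψ ha hhol y
  rw [hbox y] at hv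
  have hn1 : ((n : ℂ) + 1) ≠ 0 := by
    exact_mod_cast Nat.succ_ne_zero n
  have hg : ∀ s : ℝ, HasDerivAt (fun t : ℝ => Real.exp (-(t / (n + 1))))
      (Real.exp (-(s / (n + 1))) * (-(1 / (n + 1)))) s := by
    intro s
    exact (((hasDerivAt_id s).div_const _).neg).exp
  have hdz : ∀ j, dz j (fun z => lf c 0 z * (starRingEnd ℂ) (lf c' 0 z) *
        (Real.exp (-(ψ z / (n + 1))) : ℂ)) y
      = c j.succ * (starRingEnd ℂ) (lf c' 0 y) * (Real.exp (-(ψ y / (n + 1))) : ℂ)
        - lf c 0 y * (starRingEnd ℂ) (lf c' 0 y) * (Real.exp (-(ψ y / (n + 1))) : ℂ)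
          * dz j (fun z => ((ψ z : ℝ) : ℂ)) y / (n + 1) := by
    intro j
    have d1 : DifferentiableAt ℝ (lf c 0) y := (differentiable_lf c y).restrictScalars ℝ
    have d2 : DifferentiableAt ℝ (fun z : E n => (starRingEnd ℂ) (lf c' 0 z)) y :=
      (Complex.conjCLE.differentiableAt).comp y ((differentiable_lf c' y).restrictScalars ℝ)
    have d3 : DifferentiableAt ℝ (fun z => (Real.exp (-(ψ z / (n + 1))) : ℂ)) y := by
      have d4 : DifferentiableAt ℝ (fun z => ψ z / ((n : ℝ) + 1)) y := by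
        simpa only [div_eq_mul_inv] using (hψd y).mul_const (((n : ℝ) + 1)⁻¹)
      have : DifferentiableAt ℝ (fun z => Real.exp (-(ψ z / (n + 1)))) y := d4.neg.exp
      exact Complex.ofRealCLM.differentiableAt.comp y this
    have d12 : DifferentiableAt ℝ (fun z : E n => lf c 0 z * (starRingEnd ℂ) (lf c' 0 z)) y :=
      d1.mul d2
    rw [dz_mul d12 d3, dz_mul d1 d2, dz_lf, dz_conj, db_hol (differentiable_lf c' y),
      dz_real_comp (g := fun t : ℝ => Real.exp (-(t / (n + 1)))) (hg (ψ y)).differentiableAt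
        (hψd y) j, (hg (ψ y)).deriv]
    push_cast
    rw [map_zero]
    field_simp
    ring
  simp only [hdz]
  have e1 : ∀ j, a y j * (c j.succ * (starRingEnd ℂ) (lf c' 0 y)
        * (Real.exp (-(ψ y / (n + 1))) : ℂ)
        - lf c 0 y * (starRingEnd ℂ) (lf c' 0 y) * (Real.exp (-(ψ y / (n + 1))) : ℂ)
          * dz j (fun z => ((ψ z : ℝ) : ℂ)) y / (n + 1))
      = (a y j * c j.succ) * ((starRingEnd ℂ) (lf c' 0 y) * (Real.exp (-(ψ y / (n + 1))) : ℂ))
        - (a y j * dz j (fun z => ((ψ z : ℝ) : ℂ)) y - dz j (fun z => a z j) y)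
          * (lf c 0 y * (starRingEnd ℂ) (lf c' 0 y) * (Real.exp (-(ψ y / (n + 1))) : ℂ) / (n + 1))
        - dz j (fun z => a z j) y
          * (lf c 0 y * (starRingEnd ℂ) (lf c' 0 y) * (Real.exp (-(ψ y / (n + 1))) : ℂ) / (n + 1))
      := by
    intro j
    ring
  simp only [e1]
  rw [Finset.sum_sub_distrib, Finset.sum_sub_distrib, ← Finset.sum_mul, ← Finset.sum_mul,
    ← Finset.sum_mul, ← hv]
  unfold DD
  ring

theorem continuous_sm {f : CP n → ℂ} (hf : Sm n f) : Continuous f := by
  rw [continuous_iff_continuousAt]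
  intro x
  have he := chart_mem_atlas (E n) x
  have hx := mem_chart_source (E n) x
  have h1 : ContinuousAt (fun y => f ((chartAt (E n) x).symm y)) (chartAt (E n) x x) :=
    ((hf _ he).continuousOn).continuousAt
      ((chartAt (E n) x).open_target.mem_nhds ((chartAt (E n) x).map_source hx))
  have h2 : ContinuousAt (fun x' => f ((chartAt (E n) x).symm (chartAt (E n) x x'))) x :=
    ContinuousAt.comp (g := fun y => f ((chartAt (E n) x).symm y)) (f := chartAt (E n) x) h1
      ((chartAt (E n) x).continuousAt hx)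
  refine h2.congr ?_
  filter_upwards [(chartAt (E n) x).open_source.mem_nhds hx] with x' hx'
  rw [(chartAt (E n) x).left_inv hx']

theorem dense_chart : Dense ((CP.chart 0 : Ch n (CP n)).source) := by
  intro x
  by_cases hx : x.rep 0 ≠ 0
  · exact subset_closure hx
  · push Not at hx
    obtain ⟨k, hk⟩ := CP.exists_rep_ne x
    have hk0 : k ≠ 0 := by
      rintro rfl
      exact hk hx
    have hne : ∀ t : ℂ, x.rep + t • (Pi.single 0 1 : E (n + 1)) ≠ 0 := by
      intro t h
      have := congrFun h k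
      simp [hk0] at this
      exact hk this
    have hc : Continuous (fun t : ℂ =>
        (CP.mk (x.rep + t • (Pi.single 0 1 : E (n + 1))) (hne t) : CP n)) := by
      have : Continuous (fun t : ℂ => (⟨x.rep + t • (Pi.single 0 1 : E (n + 1)), hne t⟩ :
          {v : E (n + 1) // v ≠ 0})) :=
        Continuous.subtype_mk (continuous_const.add (continuous_id.smul continuous_const)) _
      exact CP.continuous_mk.comp this
    have h0 : (CP.mk (x.rep + (0 : ℂ) • (Pi.single 0 1 : E (n + 1))) (hne 0) : CP n) = x := by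
      conv_rhs => rw [← CP.mk_rep x]
      congr 1
      simp
    have ht := (hc.tendsto 0).mono_left (nhdsWithin_le_nhds (s := {0}ᶜ))
    rw [h0] at ht
    refine mem_closure_of_tendsto ht ?_
    filter_upwards [self_mem_nhdsWithin] with t ht
    rw [CP.mem_source_chart]
    simp [hx]
    exact ht

/-- the families of the functions `v` and `conj F` -/
def fam (f : CP n → ℂ) : Fam n (CP n) ℂ := fun e y => f (e.symm y)

theorem continuousOn_en {ψ : Fam n (CP n) ℝ} (hψ : IsPos 1 ψ) {f g : CP n → ℂ} (hf : Sm n f)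
    (hg : Sm n g) : ∀ e ∈ atlas (E n) (CP n), ContinuousOn (en ψ (fam f) (fam g) e) e.target := by
  intro e he
  have h1 : ∀ j, ContDiffOn ℝ ∞ (fun y => rs (lev (ψ e) y) (dbv (fam f e) y) j) e.target :=
    fun j => contDiffOn_rs e.open_target (hψ.smooth e he) (hψ.pos e he) (hf e he) j
  have h2 : ∀ j, ContDiffOn ℝ ∞ (db j (fam g e)) e.target :=
    fun j => contDiffOn_db e.open_target (hg e he) j
  have e1 : en ψ (fam f) (fam g) e = fun y =>
      (∑ j, rs (lev (ψ e) y) (dbv (fam f e) y) j * (starRingEnd ℂ) (db j (fam g e) y)) *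
        (Real.exp (-ψ e y) : ℂ) := by
    funext y
    unfold en
    rw [cn_eq_left]
    rfl
  rw [e1]
  refine ContinuousOn.mul ?_ ?_
  · refine continuousOn_finsetSum _ fun j _ => ?_
    exact (h1 j).continuousOn.mul (Complex.continuous_conj.comp_continuousOn (h2 j).continuousOn)
  · exact Complex.continuous_ofReal.comp_continuousOn
      (Real.continuous_exp.comp_continuousOn (hψ.smooth e he).continuousOn.neg)

theorem isSec_fam {f : CP n → ℂ} (hf : Sm n f) : IsSec 0 (fam f) := isSec_zero_iff.1 hf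

theorem continuous_G {ψ : Fam n (CP n) ℝ} (hψ : IsPos 1 ψ) {f g : CP n → ℂ} (hf : Sm n f)
    (hg : Sm n g) : Continuous (fn ψ (en ψ (fam f) (fam g))) := by
  have hψ' : IsPos (0 + 1) ψ := by simpa using hψ
  exact continuous_fn hψ.toIsWeight (en_isDen hψ' (isSec_fam hf) (isSec_fam hg))
    (continuousOn_en hψ hf hg)

theorem G_eq {ψ : Fam n (CP n) ℝ} (hψ : IsPos 1 ψ) {f g : CP n → ℂ} (hf : Sm n f)
    (hg : Sm n g) {a : E n → E n}
    (ha : ∀ y j, a y j
      = rs (lev (ψ (CP.chart 0)) y) (dbv (fun z => f ((CP.chart 0).symm z)) y) j) (y : E n) :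
    fn ψ (en ψ (fam f) (fam g)) ((CP.chart 0).symm y)
      = ∑ j, a y j * dz j (fun z => (starRingEnd ℂ) (g ((CP.chart 0).symm z))) y := by
  have hψ' : IsPos (0 + 1) ψ := by simpa using hψ
  have hden := en_isDen hψ' (isSec_fam hf) (isSec_fam hg)
  have hy : y ∈ (CP.chart 0 : Ch n (CP n)).target := by rw [CP.chart_target]; exact mem_univ y
  have hx : (CP.chart 0).symm y ∈ (CP.chart 0 : Ch n (CP n)).source :=
    (CP.chart 0).map_target hy
  rw [fn_eq hψ.toIsWeight hden (mem_range_self 0) hx, (CP.chart 0).right_inv hy]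
  unfold en
  rw [cn_eq_left, mul_assoc, ← Complex.ofReal_mul, ← Real.exp_add]
  simp only [neg_add_cancel, Real.exp_zero, Complex.ofReal_one, mul_one]
  refine Finset.sum_congr rfl fun j _ => ?_
  rw [ha y j, dz_conj]
  rfl

end M2f

open M2f in
theorem exists_matrix (hn : 0 < n) {ψ : Fam n (CP n) ℝ} (hψ : IsPos 1 ψ) {μ : Measure (CP n)}
    (hμ : IsDens μ ψ) {v : CP n → ℂ} (hv : Sm n v)
    (hbox : ∀ i y, bx (ψ (CP.chart i)) (fun z => v ((CP.chart i).symm z)) y
      = v ((CP.chart i).symm y)) {a : E n → E n}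
    (ha : ∀ y j, a y j
      = rs (lev (ψ (CP.chart 0)) y) (dbv (fun z => v ((CP.chart 0).symm z)) y) j)
    (hhol : Differentiable ℂ a) :
    ∃ B : Matrix (Fin (n + 1)) (Fin (n + 1)) ℂ,
      (∀ c y, lf (B.mulVec c) 0 y = ∑ j, a y j * c j.succ
        - (∑ j, dz j (fun z => a z j) y) / (n + 1) * lf c 0 y) ∧
      (∀ c c' y, ∑ j, a y j * dz j (fun z => Fc ψ c c' ((CP.chart 0).symm z)) y
        = Fc ψ (B.mulVec c) c' ((CP.chart 0).symm y)
          - v ((CP.chart 0).symm y) * Fc ψ c c' ((CP.chart 0).symm y) / (n + 1)) ∧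
      ∀ c c', ∫ x, Fc ψ (B.mulVec c) c' x ∂μ
        = ((n + 2) / (n + 1)) * ∫ x, v x * Fc ψ c c' x ∂μ := by
  have hw := hψ.toIsWeight
  have hψ0 := contDiff_weight hw 0
  have hn1 : ((n : ℂ) + 1) ≠ 0 := by exact_mod_cast Nat.succ_ne_zero n
  have hF : ∀ c c' : E (n + 1), (fun z => Fc ψ c c' ((CP.chart 0).symm z))
      = fun z => lf c 0 z * (starRingEnd ℂ) (lf c' 0 z) *
        (Real.exp (-(ψ (CP.chart 0) z / (n + 1))) : ℂ) := fun c c' => by
    funext z
    exact Fc_eq hw c c' 0 z
  -- the identity `a(F) = D l conj l' e - v F / (n + 1)`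
  have hA : ∀ c c' y, ∑ j, a y j * dz j (fun z => Fc ψ c c' ((CP.chart 0).symm z)) y
      = DD a c y * (starRingEnd ℂ) (lf c' 0 y) *
        (Real.exp (-(ψ (CP.chart 0) y / (n + 1))) : ℂ)
        - v ((CP.chart 0).symm y) * Fc ψ c c' ((CP.chart 0).symm y) / (n + 1) := by
    intro c c' y
    rw [hF c c', aF_eq hψ0 ha hhol (hbox 0) c c' y, Fc_eq hw c c' 0 y]
  -- the same as a continuous function on the manifold
  have hG : ∀ c c' y, fn ψ (en ψ (fam v) (fam (Fc ψ c' c))) ((CP.chart 0).symm y)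
      = ∑ j, a y j * dz j (fun z => Fc ψ c c' ((CP.chart 0).symm z)) y := by
    intro c c' y
    rw [G_eq hψ hv (Fc_sm hw c' c) ha y]
    simp only [Fc_conj]
  have hGc : ∀ c c', Continuous (fn ψ (en ψ (fam v) (fam (Fc ψ c' c)))) := fun c c' =>
    continuous_G hψ hv (Fc_sm hw c' c)
  have hvc := continuous_sm hv
  have hFc : ∀ c c', Continuous (Fc ψ c c') := fun c c' => continuous_sm (Fc_sm hw c c')
  -- lower bound for `(1 + |y|²) e^{-ψ₀/(n+1)}`
  obtain ⟨m, hm0, hm⟩ : ∃ m : ℝ, 0 < m ∧ ∀ y : E n,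
      m ≤ (∑ b, ‖lf (Pi.single b 1) 0 y‖) * (1 + ‖y‖) *
        Real.exp (-(ψ (CP.chart 0) y / (n + 1))) := by
    have hSc : Continuous fun x => ∑ b : Fin (n + 1), (Fc ψ (Pi.single b 1) (Pi.single b 1) x).re :=
      continuous_finsetSum _ fun b _ => Complex.continuous_re.comp (hFc _ _)
    have hSeq : ∀ i y, ∑ b : Fin (n + 1), (Fc ψ (Pi.single b 1) (Pi.single b 1)
        ((CP.chart i).symm y)).re = (∑ b, ‖ins i y b‖ ^ 2) *
          Real.exp (-(ψ (CP.chart i) y / (n + 1))) := by
      intro i y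
      rw [Finset.sum_mul]
      refine Finset.sum_congr rfl fun b _ => ?_
      have e1 : lf (Pi.single b 1) i y = ins i y b := by
        unfold lf
        rw [Finset.sum_eq_single b]
        · simp
        · intro k _ hk
          simp [hk]
        · intro h
          exact absurd (Finset.mem_univ b) h
      rw [Fc_eq hw, e1, Complex.mul_conj, Complex.normSq_eq_norm_sq, ← Complex.ofReal_mul,
        Complex.ofReal_re]
    have hSpos : ∀ x, 0 < ∑ b : Fin (n + 1), (Fc ψ (Pi.single b 1) (Pi.single b 1) x).re := by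
      intro x
      obtain ⟨i, hi, -⟩ := CP.exists_chart_ball x
      rw [← (CP.chart i).left_inv hi, hSeq]
      refine mul_pos ?_ (Real.exp_pos _)
      refine Finset.sum_pos' (fun _ _ => by positivity) ⟨i, Finset.mem_univ _, ?_⟩
      simp [ins]
    obtain ⟨x0, -, hx0⟩ := isCompact_univ.exists_isMinOn (univ_nonempty (α := CP n))
      hSc.continuousOn
    refine ⟨_, hSpos x0, fun y => (hx0 (mem_univ ((CP.chart 0).symm y))).trans ?_⟩
    dsimp only
    rw [hSeq]
    refine mul_le_mul_of_nonneg_right ?_ (Real.exp_pos _).le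
    rw [Finset.sum_mul]
    refine Finset.sum_le_sum fun b _ => ?_
    have e1 : lf (Pi.single b 1) 0 y = ins 0 y b := by
      unfold lf
      rw [Finset.sum_eq_single b]
      · simp
      · intro k _ hk
        simp [hk]
      · intro h
        exact absurd (Finset.mem_univ b) h
    rw [e1, sq]
    refine mul_le_mul_of_nonneg_left ?_ (norm_nonneg _)
    refine Fin.cases ?_ (fun j => ?_) b
    · simp [ins]
    · have e2 : ins 0 y j.succ = y j := by simp [ins, Fin.insertNth_zero]
      rw [e2]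
      have := norm_le_pi_norm y j
      linarith
  -- linear growth of `D l`
  have hgrow : ∀ c, ∃ K : ℝ, ∀ y, ‖DD a c y‖ ≤ K * (1 + ‖y‖) := by
    intro c
    have hb : ∀ c', ∃ C : ℝ, ∀ y, ‖DD a c y‖ * ‖lf c' 0 y‖ *
        Real.exp (-(ψ (CP.chart 0) y / (n + 1))) ≤ C := by
      intro c'
      have hcont : Continuous fun x => fn ψ (en ψ (fam v) (fam (Fc ψ c' c))) x
          + v x * Fc ψ c c' x / (n + 1) :=
        (hGc c c').add ((hvc.mul (hFc c c')).div_const _)
      obtain ⟨C, hC⟩ := isCompact_univ.exists_bound_of_continuousOn hcont.continuousOn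
      refine ⟨C, fun y => ?_⟩
      have := hC ((CP.chart 0).symm y) (mem_univ _)
      rw [hG, hA, sub_add_cancel, norm_mul, norm_mul, RCLike.norm_conj, Complex.norm_real,
        Real.norm_eq_abs, abs_of_pos (Real.exp_pos _)] at this
      exact this
    choose C hC using hb
    refine ⟨(∑ b : Fin (n + 1), C (Pi.single b 1)) / m, fun y => ?_⟩
    rw [div_mul_eq_mul_div, le_div_iff₀ hm0]
    calc ‖DD a c y‖ * m ≤ ‖DD a c y‖ * ((∑ b, ‖lf (Pi.single b 1) 0 y‖) * (1 + ‖y‖) *
        Real.exp (-(ψ (CP.chart 0) y / (n + 1)))) :=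
          mul_le_mul_of_nonneg_left (hm y) (norm_nonneg _)
      _ = (∑ b, ‖DD a c y‖ * ‖lf (Pi.single b 1) 0 y‖ *
          Real.exp (-(ψ (CP.chart 0) y / (n + 1)))) * (1 + ‖y‖) := by
          rw [← Finset.sum_mul, ← Finset.mul_sum]
          ring
      _ ≤ (∑ b : Fin (n + 1), C (Pi.single b 1)) * (1 + ‖y‖) := by
          refine mul_le_mul_of_nonneg_right ?_ (by positivity)
          exact Finset.sum_le_sum fun b _ => hC _ y
  have haff : ∀ c, ∃ b : E (n + 1), ∀ y, DD a c y = lf b 0 y := by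
    intro c
    obtain ⟨K, hK⟩ := hgrow c
    exact affine_of (differentiable_DD hhol c) hK
  choose β hβ using haff
  set B : Matrix (Fin (n + 1)) (Fin (n + 1)) ℂ := Matrix.of fun i b => β (Pi.single b 1) i with hB
  have hB1 : ∀ c y, lf (B.mulVec c) 0 y = DD a c y := by
    intro c y
    have e1 : lf (B.mulVec c) 0 y = ∑ b, c b * lf (β (Pi.single b 1)) 0 y := by
      unfold lf Matrix.mulVec dotProduct
      simp only [Finset.sum_mul, Finset.mul_sum]
      rw [Finset.sum_comm]
      refine Finset.sum_congr rfl fun b _ => Finset.sum_congr rfl fun k _ => ?_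
      simp only [hB, Matrix.of_apply]
      ring
    have e2 : ∀ c : E (n + 1), DD a c y = ∑ b, c b * ((Fin.cons 0 (a y) : E (n + 1)) b
        - (∑ j, dz j (fun z => a z j) y) / (n + 1) * ins 0 y b) := by
      intro c
      unfold DD lf
      simp only [mul_sub, Finset.sum_sub_distrib]
      congr 1
      · rw [Fin.sum_univ_succ]
        simp only [Fin.cons_zero, mul_zero, zero_add, Fin.cons_succ]
        exact Finset.sum_congr rfl fun j _ => mul_comm _ _
      · rw [Finset.mul_sum]
        refine Finset.sum_congr rfl fun j _ => ?_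
        ring
    rw [e1, e2 c]
    refine Finset.sum_congr rfl fun b _ => ?_
    rw [← hβ, e2 (Pi.single b 1), Finset.sum_eq_single b]
    · simp
    · intro k _ hk
      simp [hk]
    · intro h
      exact absurd (Finset.mem_univ b) h
  have hB2 : ∀ c c' y, ∑ j, a y j * dz j (fun z => Fc ψ c c' ((CP.chart 0).symm z)) y
        = Fc ψ (B.mulVec c) c' ((CP.chart 0).symm y)
          - v ((CP.chart 0).symm y) * Fc ψ c c' ((CP.chart 0).symm y) / (n + 1) := by
    intro c c' y
    rw [hA, Fc_eq hw (B.mulVec c) c' 0 y, hB1]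
  refine ⟨B, fun c y => hB1 c y, hB2, fun c c' => ?_⟩
  -- integrate
  have hψ' : IsPos (0 + 1) ψ := by simpa using hψ
  have hsec1 := isSec_fam hv
  have hsec2 := isSec_fam (Fc_sm hw c' c)
  have hip := ip_box hw hμ hψ' hsec1 hsec2
  have h1 : ip μ ψ ψ (box ψ (fam v)) (fam (Fc ψ c' c)) = ∫ x, v x * Fc ψ c c' x ∂μ := by
    unfold ip
    congr 1
    funext x
    obtain ⟨i, hi⟩ : ∃ i, CP.chart i = chartAt (E n) x := chart_mem_atlas (E n) x
    have hx := mem_chart_source (E n) x
    unfold fn pr box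
    have e1 : bx (ψ (chartAt (E n) x)) (fam v (chartAt (E n) x)) (chartAt (E n) x x) = v x := by
      rw [← hi]
      rw [← hi] at hx
      have := hbox i (CP.chart i x)
      rw [(CP.chart i).left_inv hx] at this
      exact this
    have e2 : fam (Fc ψ c' c) (chartAt (E n) x) (chartAt (E n) x x) = Fc ψ c' c x := by
      unfold fam
      rw [(chartAt (E n) x).left_inv hx]
    rw [e1, e2, Fc_conj, mul_assoc, ← Complex.ofReal_mul, ← Real.exp_add]
    simp
  have h2 : dp μ ψ ψ (fam v) (fam (Fc ψ c' c))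
      = ∫ x, (Fc ψ (B.mulVec c) c' x - v x * Fc ψ c c' x / (n + 1)) ∂μ := by
    unfold dp
    congr 1
    have hcont : Continuous fun x => Fc ψ (B.mulVec c) c' x - v x * Fc ψ c c' x / (n + 1) :=
      (hFc _ _).sub ((hvc.mul (hFc c c')).div_const _)
    refine Continuous.ext_on dense_chart (hGc c c') hcont fun x hx => ?_
    rw [← (CP.chart 0).left_inv hx, hG, hB2]
  have hfin : IsFiniteMeasure μ := isFiniteMeasure_of_isDens hw hμ
  have i1 : Integrable (fun x => Fc ψ (B.mulVec c) c' x) μ := Fc_integrable hw hμ _ _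
  have i2 : Integrable (fun x => v x * Fc ψ c c' x) μ := by
    obtain ⟨C, hC⟩ := isCompact_univ.exists_bound_of_continuousOn
      ((hvc.mul (hFc c c')).continuousOn (s := univ))
    exact Integrable.of_bound (hvc.mul (hFc c c')).aestronglyMeasurable C
      (ae_of_all _ fun x => hC x (mem_univ x))
  have i2' : Integrable (fun x => v x * Fc ψ c c' x / (n + 1)) μ := i2.div_const _
  rw [h1, h2, integral_sub i1 i2', integral_div] at hip
  have hn1' : ((n : ℂ) + 1) ≠ 0 := hn1
  field_simp
  field_simp at hip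
  linear_combination -hip

end Pool.Agent.helper63.NU
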