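import Pool.Agent.helper31.NU.P1

set_option autoImplicit false
set_option linter.all false

/-! Module P2: the derivative of the Fisher information along `L f`. -/

open MeasureTheory Filter Topology Set
open scoped ContDiff

noncomputable section

namespace Pool.Agent.helper31.NU

variable {M : Type*} [TopologicalSpace M] [CompactSpace M] [MeasurableSpace M] [BorelSpace M]
  {σ : Measure M} [IsProbabilityMeasure σ]
  {S : Set (M → ℝ)} {L : (M → ℝ) → M → ℝ} {Γ : (M → ℝ) → (M → ℝ) → M → ℝ} {n : ℝ}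

theorem Diff.ent_L (D : Diff σ S L Γ n) {f : M → ℝ} (hf : f ∈ S) (h0 : ∀ x, 0 < f x) :
    ∫ x, L f x * Real.log (f x) ∂σ = -∫ x, Γ f f x / f x ∂σ := by
  have h := D.ibp (D.log_mem hf h0) hf
  have e1 : ∀ x, L f x * Real.log (f x) = Real.log (f x) * L f x := fun x => mul_comm _ _
  have e2 : ∀ x, Γ f f x / f x = Γ (fun x => Real.log (f x)) f x := fun x =>
    (D.Glog hf h0 hf x).symm
  simp only [e1, e2]
  exact h

/-- With `u = log f`: the left side is `∫ (2 Γ(u, L f) - Γ(u) L f) = -∫ f (L Γ(u) - 2 Γ(u, L u))`,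
because `∫ Γ(u, L f) = -∫ L u L f = ∫ Γ(f, L u) = ∫ f Γ(u, L u)` and `∫ Γ(u) L f = ∫ f L Γ(u)`; use
`cd`, then `∫ f (L u)² ≥ (∫ f L u)²` (as `∫ f = 1`) and `∫ f L u = -∫ Γ(f, u) = -I`,
`∫ f Γ(u) = I`. -/
theorem Diff.fisher_le (D : Diff σ S L Γ n) (hn : 0 < n) {f : M → ℝ} (hf : f ∈ S)
    (h0 : ∀ x, 0 < f x) (h1 : ∫ x, f x ∂σ = 1) :
    ∫ x, (2 * Γ f (L f) x / f x - Γ f f x * L f x / f x ^ 2) ∂σ ≤
      -(∫ x, Γ f f x / f x ∂σ) - (∫ x, Γ f f x / f x ∂σ) ^ 2 / n := by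
  set u : M → ℝ := fun x => Real.log (f x) with hu
  have hus : u ∈ S := D.log_mem hf h0
  have hLf : L f ∈ S := D.memL f hf
  have hLu : L u ∈ S := D.memL u hus
  have hA : ∀ g ∈ S, ∀ x, Γ u g x = Γ f g x / f x := fun g hg x => D.Glog hf h0 hg x
  have hfu : ∀ x, Γ f u x = Γ f f x / f x := fun x => by
    rw [D.Gsymm f hf u hus x, hA f hf x]
  have huu : ∀ x, Γ u u x = Γ f f x / f x ^ 2 := fun x => by
    rw [hA u hus x, hfu x, div_div, sq]
  set I : ℝ := ∫ x, Γ f f x / f x ∂σ with hI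
  have hIu : ∫ x, Γ f u x ∂σ = I := by simp only [hfu]; rfl
  have hGuu : Γ u u ∈ S := D.memG u hus u hus
  have hGuLu : Γ u (L u) ∈ S := D.memG u hus _ hLu
  -- the integrand
  have e1 : ∀ x, 2 * Γ f (L f) x / f x - Γ f f x * L f x / f x ^ 2
      = 2 * Γ u (L f) x - Γ u u x * L f x := by
    intro x
    rw [hA _ hLf x, huu x]; ring
  simp only [e1]
  have iA : Integrable (fun x => 2 * Γ u (L f) x) σ :=
    (D.integrable (D.memG u hus _ hLf)).const_mul 2
  have iB : Integrable (fun x => Γ u u x * L f x) σ := D.integrable (D.mul _ hGuu _ hLf)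
  rw [integral_sub iA iB, integral_const_mul]
  have h2 : ∫ x, Γ u (L f) x ∂σ = ∫ x, f x * Γ u (L u) x ∂σ := by
    have a1 := D.ibp hLf hus
    have a2 := D.ibp hLu hf
    have a3 : ∫ x, L f x * L u x ∂σ = ∫ x, L u x * L f x ∂σ := by
      simp only [mul_comm]
    have a4 : ∫ x, Γ (L f) u x ∂σ = ∫ x, Γ u (L f) x ∂σ := by
      refine integral_congr_ae (ae_of_all _ fun x => ?_)
      exact D.Gsymm _ hLf u hus x
    have a5 : ∫ x, Γ (L u) f x ∂σ = ∫ x, f x * Γ u (L u) x ∂σ := by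
      refine integral_congr_ae (ae_of_all _ fun x => ?_)
      dsimp only
      rw [D.Gsymm _ hLu f hf x, hA _ hLu x, mul_div_cancel₀ _ (h0 x).ne']
    rw [a3] at a1
    rw [← a4, ← a5]
    linarith
  have h3 : ∫ x, Γ u u x * L f x ∂σ = ∫ x, f x * L (Γ u u) x ∂σ := D.symm hGuu hf
  rw [h2, h3]
  have i1 : Integrable (fun x => f x * Γ u (L u) x) σ := D.integrable (D.mul _ hf _ hGuLu)
  have i2 : Integrable (fun x => f x * L (Γ u u) x) σ :=
    D.integrable (D.mul _ hf _ (D.memL _ hGuu))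
  have i3 : Integrable (fun x => f x * Γ u u x) σ := D.integrable (D.mul _ hf _ hGuu)
  have i4 : Integrable (fun x => f x * (L u x) ^ 2) σ := by
    have := D.integrable (D.mul _ hf _ (D.mul _ hLu _ hLu))
    refine this.congr (ae_of_all _ fun x => ?_)
    simp only [Pi.mul_apply]; ring
  have i5 : Integrable (fun x => f x * L u x) σ := D.integrable (D.mul _ hf _ hLu)
  have i6 : Integrable f σ := D.integrable hf
  have h4 : 2 * ∫ x, f x * Γ u (L u) x ∂σ - ∫ x, f x * L (Γ u u) x ∂σ ≤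
      -(∫ x, f x * Γ u u x ∂σ) - (∫ x, f x * (L u x) ^ 2 ∂σ) / n := by
    have i1' : Integrable (fun x => 2 * (f x * Γ u (L u) x)) σ := i1.const_mul 2
    have i3' : Integrable (fun x => -(f x * Γ u u x)) σ := i3.neg
    have i4' : Integrable (fun x => f x * (L u x) ^ 2 / n) σ := i4.div_const n
    have j1 : 2 * ∫ x, f x * Γ u (L u) x ∂σ - ∫ x, f x * L (Γ u u) x ∂σ =
        ∫ x, (2 * (f x * Γ u (L u) x) - f x * L (Γ u u) x) ∂σ := by
      rw [integral_sub i1' i2, integral_const_mul]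
    have j2 : -(∫ x, f x * Γ u u x ∂σ) - (∫ x, f x * (L u x) ^ 2 ∂σ) / n =
        ∫ x, (-(f x * Γ u u x) - f x * (L u x) ^ 2 / n) ∂σ := by
      rw [integral_sub i3' i4', integral_neg, integral_div]
    rw [j1, j2]
    refine integral_mono (i1'.sub i2) (i3'.sub i4') fun x => ?_
    have hcd := mul_le_mul_of_nonneg_left (D.cd u hus x) (h0 x).le
    have e : f x * (Γ u u x + (L u x) ^ 2 / n) = f x * Γ u u x + f x * (L u x) ^ 2 / n := by ring
    rw [e, mul_sub] at hcd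
    dsimp only
    have e2 : f x * (2 * Γ u (L u) x) = 2 * (f x * Γ u (L u) x) := by ring
    rw [e2] at hcd
    linarith
  have h5 : ∫ x, f x * Γ u u x ∂σ = I := by
    rw [hI]
    refine integral_congr_ae (ae_of_all _ fun x => ?_)
    dsimp only
    rw [huu x]
    have := (h0 x).ne'
    field_simp
  have h6 : ∫ x, f x * L u x ∂σ = -I := by
    rw [D.ibp hf hus, hIu]
  have h7 : I ^ 2 ≤ ∫ x, f x * (L u x) ^ 2 ∂σ := by
    have b1 : 0 ≤ ∫ x, f x * (L u x + I) ^ 2 ∂σ :=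
      integral_nonneg fun x => mul_nonneg (h0 x).le (sq_nonneg _)
    have b2 : ∫ x, f x * (L u x + I) ^ 2 ∂σ
        = ∫ x, f x * (L u x) ^ 2 ∂σ + 2 * I * ∫ x, f x * L u x ∂σ + I ^ 2 * ∫ x, f x ∂σ := by
      have i5' : Integrable (fun x => 2 * I * (f x * L u x)) σ := i5.const_mul _
      have i6' : Integrable (fun x => I ^ 2 * f x) σ := i6.const_mul _
      have i45 : Integrable (fun x => f x * (L u x) ^ 2 + 2 * I * (f x * L u x)) σ := i4.add i5'
      have j0 : ∀ x, f x * (L u x + I) ^ 2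
          = (f x * (L u x) ^ 2 + 2 * I * (f x * L u x)) + I ^ 2 * f x := fun x => by ring
      simp only [j0]
      rw [integral_add i45 i6', integral_add i4 i5', integral_const_mul, integral_const_mul]
    rw [b2, h6, h1] at b1
    nlinarith
  refine h4.trans ?_
  rw [h5]
  have h8 : I ^ 2 / n ≤ (∫ x, f x * (L u x) ^ 2 ∂σ) / n := div_le_div_of_nonneg_right h7 hn.le
  linarith

end Pool.Agent.helper31.NU
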